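import Mathlib.Algebra.Order.Ring.Star
import Mathlib.Analysis.CStarAlgebra.Module.Constructions
import Mathlib.Analysis.InnerProductSpace.Dual
import Mathlib.Analysis.InnerProductSpace.Completion
import Mathlib.Topology.Separation.CompletelyRegular
import Mathlib.Tactic.Algebra.Basic

-- ======== part 0: formerly Pool.Agent.MP_5139aa_an.Riesz
section MrgPart0

set_option autoImplicit false

namespace Pool.Agent.MP_5139aa_an

open Finset Complex
open scoped ComplexConjugate

/-- positive semidefinite functions on the integers -/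
def PSD (q : ℤ → ℂ) : Prop :=
  ∀ (ι : Type) (s : Finset ι) (x : ι → ℤ) (c : ι → ℂ),
    0 ≤ (∑ i ∈ s, ∑ j ∈ s, conj (c i) * c j * q (x j - x i)).re

/-- dilation by three -/
noncomputable def up (q : ℤ → ℂ) (n : ℤ) : ℂ := if n % 3 = 0 then q (n / 3) else 0

/-- one step of the Riesz product -/
noncomputable def step (q : ℤ → ℂ) (n : ℤ) : ℂ :=
  up q n + (I / 2) * up q (n - 1) + (-I / 2) * up q (n + 1)

lemma step_zero (q : ℤ → ℂ) (m : ℤ) : step q (3 * m) = q m := by
  have h1 : (3 * m) % 3 = 0 := by omega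
  have h2 : ¬ (3 * m - 1) % 3 = 0 := by omega
  have h3 : ¬ (3 * m + 1) % 3 = 0 := by omega
  have h4 : (3 * m) / 3 = m := by omega
  simp only [step, up, if_pos h1, if_neg h2, if_neg h3, h4]
  ring

lemma step_one (q : ℤ → ℂ) (m : ℤ) : step q (3 * m + 1) = I / 2 * q m := by
  have h1 : ¬ (3 * m + 1) % 3 = 0 := by omega
  have h2 : (3 * m + 1 - 1) % 3 = 0 := by omega
  have h3 : ¬ (3 * m + 1 + 1) % 3 = 0 := by omega
  have h4 : (3 * m + 1 - 1) / 3 = m := by omega
  simp only [step, up, if_neg h1, if_pos h2, if_neg h3, h4]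
  ring

lemma step_neg (q : ℤ → ℂ) (m : ℤ) : step q (3 * m - 1) = -I / 2 * q m := by
  have h1 : ¬ (3 * m - 1) % 3 = 0 := by omega
  have h2 : ¬ (3 * m - 1 - 1) % 3 = 0 := by omega
  have h3 : (3 * m - 1 + 1) % 3 = 0 := by omega
  have h4 : (3 * m - 1 + 1) / 3 = m := by omega
  simp only [step, up, if_neg h1, if_neg h2, if_pos h3, h4]
  ring

lemma cases3 (n : ℤ) : ∃ m : ℤ, n = 3 * m ∨ n = 3 * m + 1 ∨ n = 3 * m - 1 :=
  ⟨(n + 1) / 3, by omega⟩

lemma PSD.up {q : ℤ → ℂ} (h : PSD q) : PSD (up q) := by
  intro ι s x c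
  have key : ∀ i j, conj (c i) * c j * Pool.Agent.MP_5139aa_an.up q (x j - x i) =
      ∑ r ∈ ({0, 1, 2} : Finset ℤ), conj (if x i % 3 = r then c i else 0) *
        (if x j % 3 = r then c j else 0) * q (x j / 3 - x i / 3) := by
    intro i j
    rw [sum_insert (by decide), sum_insert (by decide), sum_singleton]
    unfold Pool.Agent.MP_5139aa_an.up
    by_cases hij : (x j - x i) % 3 = 0
    · have e : (x j - x i) / 3 = x j / 3 - x i / 3 := by omega
      rw [if_pos hij, e]
      have h3 : (x i % 3 = 0 ∧ x j % 3 = 0) ∨ (x i % 3 = 1 ∧ x j % 3 = 1) ∨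
        (x i % 3 = 2 ∧ x j % 3 = 2) := by omega
      rcases h3 with ⟨h1, h2⟩ | ⟨h1, h2⟩ | ⟨h1, h2⟩ <;> simp [h1, h2]
    · rw [if_neg hij]
      have h3 : (x i % 3 = 0 ∧ x j % 3 = 1) ∨ (x i % 3 = 0 ∧ x j % 3 = 2) ∨
        (x i % 3 = 1 ∧ x j % 3 = 0) ∨ (x i % 3 = 1 ∧ x j % 3 = 2) ∨
        (x i % 3 = 2 ∧ x j % 3 = 0) ∨ (x i % 3 = 2 ∧ x j % 3 = 1) := by omega
      rcases h3 with ⟨h1, h2⟩ | ⟨h1, h2⟩ | ⟨h1, h2⟩ | ⟨h1, h2⟩ | ⟨h1, h2⟩ | ⟨h1, h2⟩ <;>
        simp [h1, h2]
  simp_rw [key]
  have e : ∑ i ∈ s, ∑ j ∈ s, ∑ r ∈ ({0, 1, 2} : Finset ℤ),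
      conj (if x i % 3 = r then c i else 0) * (if x j % 3 = r then c j else 0) *
        q (x j / 3 - x i / 3) =
      ∑ r ∈ ({0, 1, 2} : Finset ℤ), ∑ i ∈ s, ∑ j ∈ s,
      conj (if x i % 3 = r then c i else 0) * (if x j % 3 = r then c j else 0) *
        q (x j / 3 - x i / 3) := by
    rw [sum_comm (s := ({0, 1, 2} : Finset ℤ))]
    refine sum_congr rfl (fun i _ => ?_)
    rw [sum_comm]
  rw [e, re_sum]
  exact sum_nonneg (fun r _ => h ι s (fun i => x i / 3) (fun i => if x i % 3 = r then c i else 0))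

lemma PSD.step {q : ℤ → ℂ} (h : PSD q) : PSD (step q) := by
  intro ι s x c
  have h1 := h.up (ι ⊕ ι) (s.disjSum s) (Sum.elim x (fun i => x i + 1))
    (Sum.elim c (fun i => -I * c i))
  have e : ∑ i ∈ s.disjSum s, ∑ j ∈ s.disjSum s,
      conj (Sum.elim c (fun i => -I * c i) i) * Sum.elim c (fun i => -I * c i) j *
        Pool.Agent.MP_5139aa_an.up q
          (Sum.elim x (fun i => x i + 1) j - Sum.elim x (fun i => x i + 1) i) =
      2 * ∑ i ∈ s, ∑ j ∈ s, conj (c i) * c j * Pool.Agent.MP_5139aa_an.step q (x j - x i) := by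
    simp only [sum_disjSum, Sum.elim_inl, Sum.elim_inr, mul_sum, ← sum_add_distrib]
    refine sum_congr rfl (fun i _ => sum_congr rfl (fun j _ => ?_))
    have e1 : x j + 1 - x i = x j - x i + 1 := by ring
    have e2 : x j - (x i + 1) = x j - x i - 1 := by ring
    have e3 : x j + 1 - (x i + 1) = x j - x i := by ring
    rw [e1, e2, e3]
    unfold Pool.Agent.MP_5139aa_an.step
    simp only [map_mul, map_neg, conj_I]
    linear_combination (-(conj (c i) * c j * Pool.Agent.MP_5139aa_an.up q (x j - x i))) * I_mul_I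
  rw [e] at h1
  simp only [mul_re, re_ofNat, im_ofNat, zero_mul, sub_zero] at h1
  linarith

/-- finite Riesz products -/
noncomputable def P : ℕ → ℤ → ℂ
  | 0 => fun n => if n = 0 then 1 else 0
  | K + 1 => step (P K)

lemma psd_P (K : ℕ) : PSD (P K) := by
  induction K with
  | succ K ih => exact ih.step
  | zero =>
    intro ι s x c
    classical
    have e : ∑ i ∈ s, ∑ j ∈ s, conj (c i) * c j * P 0 (x j - x i) =
        ∑ r ∈ s.image x, conj (∑ i ∈ s, if x i = r then c i else 0) *
          (∑ j ∈ s, if x j = r then c j else 0) := by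
      simp only [map_sum, sum_mul_sum]
      rw [sum_comm (s := s.image x)]
      refine sum_congr rfl (fun i hi => ?_)
      rw [sum_comm (s := s.image x)]
      refine sum_congr rfl (fun j _ => ?_)
      rw [sum_eq_single_of_mem (x i) (mem_image_of_mem x hi)]
      · by_cases hij : x j = x i
        · simp [P, hij]
        · simp [P, hij, sub_eq_zero]
      · intro r _ hr
        simp [hr.symm]
    rw [e, re_sum]
    refine sum_nonneg (fun r _ => ?_)
    rw [conj_mul']
    norm_cast
    positivity

lemma P_zero (K : ℕ) : P K 0 = 1 := by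
  induction K with
  | zero => simp [P]
  | succ K ih => simpa [P, ih] using step_zero (P K) 0

lemma P_neg (K : ℕ) (n : ℤ) : P K (-n) = conj (P K n) := by
  induction K generalizing n with
  | zero => by_cases h : n = 0 <;> simp [P, h]
  | succ K ih =>
    obtain ⟨m, rfl | rfl | rfl⟩ := cases3 n
    · rw [show -(3 * m) = 3 * (-m) by ring]
      simp only [P, step_zero, ih]
    · rw [show -(3 * m + 1) = 3 * (-m) - 1 by ring]
      simp only [P, step_one, step_neg, ih, map_mul, map_div₀, conj_I, map_ofNat]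
    · rw [show -(3 * m - 1) = 3 * (-m) + 1 by ring]
      simp only [P, step_one, step_neg, ih, map_mul, map_div₀, map_neg, conj_I, map_ofNat,
        neg_neg]

lemma norm_P_le (K : ℕ) (n : ℤ) (hn : n ≠ 0) : ‖P K n‖ ≤ 1 / 2 := by
  induction K generalizing n with
  | zero => simp [P, hn]
  | succ K ih =>
    have h1 : ∀ m, ‖P K m‖ ≤ 1 := by
      intro m
      by_cases hm : m = 0
      · simp [hm, P_zero]
      · linarith [ih m hm]
    obtain ⟨m, rfl | rfl | rfl⟩ := cases3 n
    · simp only [P, step_zero]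
      exact ih m (by omega)
    · simp only [P, step_one, norm_mul, norm_div, norm_I, Complex.norm_ofNat]
      linarith [h1 m]
    · simp only [P, step_neg, norm_mul, norm_div, norm_neg, norm_I, Complex.norm_ofNat]
      linarith [h1 m]

lemma im_P_le (K : ℕ) (n : ℤ) (hn : n ≤ 0) : (P K n).im ≤ 1 / 4 := by
  induction K generalizing n with
  | zero => by_cases h : n = 0 <;> simp [P, h]
  | succ K ih =>
    obtain ⟨m, rfl | rfl | rfl⟩ := cases3 n
    · simp only [P, step_zero]
      exact ih m (by omega)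
    · refine (im_le_norm _).trans ?_
      simp only [P, step_one, norm_mul, norm_div, norm_I, Complex.norm_ofNat]
      linarith [norm_P_le K m (by omega)]
    · by_cases hm : m = 0
      · subst hm
        simp only [P, step_neg, P_zero]
        norm_num
      · refine (im_le_norm _).trans ?_
        simp only [P, step_neg, norm_mul, norm_div, norm_neg, norm_I, Complex.norm_ofNat]
        linarith [norm_P_le K m hm]

lemma P_pow (k K : ℕ) (h : k < K) : P K (3 ^ k) = I / 2 := by
  induction k generalizing K with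
  | zero =>
    obtain ⟨K, rfl⟩ : ∃ K', K = K' + 1 := ⟨K - 1, by omega⟩
    simpa [P, P_zero] using step_one (P K) 0
  | succ k ih =>
    obtain ⟨K, rfl⟩ : ∃ K', K = K' + 1 := ⟨K - 1, by omega⟩
    rw [pow_succ']
    simp only [P, step_zero]
    exact ih K (by omega)

lemma P_stable (K : ℕ) (n : ℤ) (h : n.natAbs ≤ K) : P (K + 1) n = P K n := by
  induction K generalizing n with
  | zero =>
    have : n = 0 := by omega
    rw [this, P_zero, P_zero]
  | succ K ih =>
    obtain ⟨m, rfl | rfl | rfl⟩ := cases3 n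
    · rw [P, P, step_zero, step_zero]
      exact ih m (by omega)
    · rw [P, P, step_one, step_one]
      exact congrArg _ (ih m (by omega))
    · rw [P, P, step_neg, step_neg]
      exact congrArg _ (ih m (by omega))

/-- the Fourier coefficients of the Riesz product -/
noncomputable def p (n : ℤ) : ℂ := P n.natAbs n

lemma P_eq (K : ℕ) (n : ℤ) (h : n.natAbs ≤ K) : P K n = p n := by
  induction K, h using Nat.le_induction with
  | base => rfl
  | succ K hK ih => rw [P_stable K n hK, ih]

lemma psd_p : PSD p := by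
  intro ι s x c
  have h := psd_P (s.sup (fun i => s.sup (fun j => (x j - x i).natAbs))) ι s x c
  have e : ∑ i ∈ s, ∑ j ∈ s, conj (c i) * c j * p (x j - x i) =
      ∑ i ∈ s, ∑ j ∈ s, conj (c i) * c j *
        P (s.sup (fun i => s.sup (fun j => (x j - x i).natAbs))) (x j - x i) := by
    refine sum_congr rfl (fun i hi => sum_congr rfl (fun j hj => ?_))
    rw [P_eq]
    exact (le_sup (f := fun j => (x j - x i).natAbs) hj).trans
      (le_sup (f := fun i => s.sup (fun j => (x j - x i).natAbs)) hi)
  rw [e]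
  exact h

lemma p_zero : p 0 = 1 := P_zero _

lemma p_neg (n : ℤ) : p (-n) = conj (p n) := by
  unfold p
  rw [Int.natAbs_neg, P_neg]

lemma im_p_le (n : ℤ) (hn : n ≤ 0) : (p n).im ≤ 1 / 4 := im_P_le _ n hn

lemma p_pow (k : ℕ) : p (3 ^ k) = I / 2 := by
  rw [← P_eq (((3 : ℤ) ^ k).natAbs + k + 1) _ (by omega)]
  exact P_pow k _ (by omega)

end Pool.Agent.MP_5139aa_an

end MrgPart0

-- ======== part 1: formerly Pool.Agent.MP_5139aa_an.GNS
section MrgPart1

set_option autoImplicit false

namespace Pool.Agent.MP_5139aa_an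

open Finset Complex Filter Topology
open scoped ComplexConjugate InnerProductSpace

/-- finitely supported functions, to carry the semi-inner product given by `p` -/
def Pre : Type := ℤ →₀ ℂ

noncomputable instance : AddCommGroup Pre := inferInstanceAs (AddCommGroup (ℤ →₀ ℂ))

noncomputable instance : Module ℂ Pre := inferInstanceAs (Module ℂ (ℤ →₀ ℂ))

/-- the sesquilinear form -/
noncomputable def form (f g : ℤ →₀ ℂ) : ℂ :=
  f.sum fun m a => g.sum fun n b => conj a * b * p (n - m)

lemma form_conj (f g : ℤ →₀ ℂ) : conj (form g f) = form f g := by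
  unfold form
  rw [Finsupp.sum_comm]
  simp only [map_finsuppSum]
  refine Finsupp.sum_congr (fun m _ => Finsupp.sum_congr (fun n _ => ?_))
  rw [show n - m = -(m - n) by ring, p_neg]
  simp [mul_comm]

lemma form_add (f g h : ℤ →₀ ℂ) : form (f + g) h = form f h + form g h := by
  unfold form
  rw [Finsupp.sum_add_index'] <;> simp [← Finsupp.sum_add, add_mul]

lemma form_smul (f g : ℤ →₀ ℂ) (r : ℂ) : form (r • f) g = conj r * form f g := by
  unfold form
  rw [Finsupp.sum_smul_index] <;> simp [Finsupp.mul_sum, ← mul_assoc]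

lemma form_nonneg (f : ℤ →₀ ℂ) : 0 ≤ (form f f).re := psd_p ℤ f.support id f

lemma form_single (m n : ℤ) : form (Finsupp.single m 1) (Finsupp.single n 1) = p (n - m) := by
  simp [form]

lemma form_shift (f g : ℤ →₀ ℂ) :
    form (Finsupp.equivMapDomain (Equiv.addRight 1) f)
      (Finsupp.equivMapDomain (Equiv.addRight 1) g) = form f g := by
  simp [form, Finsupp.sum_equivMapDomain]

noncomputable instance core : PreInnerProductSpace.Core ℂ Pre where
  inner f g := form f g
  conj_inner_symm f g := form_conj f g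
  add_left f g h := form_add f g h
  smul_left f g r := form_smul f g r
  re_inner_nonneg f := form_nonneg f

noncomputable instance : SeminormedAddCommGroup Pre :=
  InnerProductSpace.Core.toSeminormedAddCommGroup (𝕜 := ℂ)

noncomputable instance : InnerProductSpace ℂ Pre := .ofCore _

lemma inner_pre (f g : Pre) : ⟪f, g⟫_ℂ = form f g := rfl

/-- the Hilbert space of the Riesz product -/
abbrev Hil : Type := UniformSpace.Completion Pre

/-- the inclusion of the finitely supported functions -/
noncomputable def inc : Pre →ₗ[ℂ] Hil :=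
  (UniformSpace.Completion.toComplL : Pre →L[ℂ] Hil).toLinearMap

lemma inc_apply (f : Pre) : inc f = (f : Hil) := rfl

lemma dense_inc : DenseRange inc := UniformSpace.Completion.denseRange_coe

/-- the shift -/
noncomputable def shift : Pre ≃ₗ[ℂ] Pre := Finsupp.domLCongr (R := ℂ) (M := ℂ) (Equiv.addRight 1)

lemma norm_shift (f : Pre) : ‖inc (shift f)‖ = ‖inc f‖ := by
  rw [inc_apply, inc_apply, UniformSpace.Completion.norm_coe, UniformSpace.Completion.norm_coe,
    @norm_eq_sqrt_re_inner ℂ, @norm_eq_sqrt_re_inner ℂ, inner_pre, inner_pre]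
  congr 2
  exact form_shift f f

/-- the unitary operator -/
noncomputable def Uni : Hil ≃ₗᵢ[ℂ] Hil :=
  shift.extendOfIsometry inc inc dense_inc dense_inc norm_shift

/-- point masses -/
noncomputable def pt (n : ℤ) : Pre := (Finsupp.single n 1 : ℤ →₀ ℂ)

/-- the orbit of the cyclic vector -/
noncomputable def vec (n : ℤ) : Hil := inc (pt n)

lemma Uni_vec (n : ℤ) : Uni (vec n) = vec (n + 1) := by
  unfold Uni vec
  rw [LinearEquiv.extendOfIsometry_eq]
  congr 1
  exact Finsupp.domLCongr_single (R := ℂ) (M := ℂ) (Equiv.addRight 1) n 1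

lemma inner_vec (m n : ℤ) : ⟪vec m, vec n⟫_ℂ = p (n - m) := by
  unfold vec
  rw [inc_apply, inc_apply, UniformSpace.Completion.inner_coe, inner_pre]
  exact form_single m n

lemma norm_vec (n : ℤ) : ‖vec n‖ = 1 := by
  rw [@norm_eq_sqrt_re_inner ℂ, inner_vec, sub_self, p_zero]
  simp

lemma ext_vec (φ ψ : Hil →L[ℂ] ℂ) (h : ∀ n, φ (vec n) = ψ (vec n)) : φ = ψ := by
  have e : φ.toLinearMap ∘ₗ inc = ψ.toLinearMap ∘ₗ inc :=
    Finsupp.lhom_ext' (R := ℂ) (α := ℤ) (M := ℂ) (φ := φ.toLinearMap ∘ₗ inc)
      (ψ := ψ.toLinearMap ∘ₗ inc) (fun n => LinearMap.ext_ring (h n))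
  ext v
  refine dense_inc.induction_on v (isClosed_eq φ.continuous ψ.continuous) (fun f => ?_)
  exact LinearMap.congr_fun e f

/-- Rajchman-type symmetry: in a Hilbert representable system, an orbit that tends to a fixed
point in forward time has that fixed point as its only limit point in backward time. -/
lemma symmetry {Y : Type} [TopologicalSpace Y] {H : Type} [NormedAddCommGroup H]
    [InnerProductSpace ℂ H] (U : H ≃ₗᵢ[ℂ] H) (g : Y → H) (S : Y → Y)
    (hinj : Function.Injective g) (heq : ∀ y, g (S y) = U (g y))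
    (hcont : ∀ v : H, Continuous (fun y => ⟪v, g y⟫_ℂ))
    (y : ℤ → Y) (hy : ∀ n, y (n + 1) = S (y n)) (y₀ : Y) (h₀ : S y₀ = y₀)
    (hlim : Tendsto (fun n : ℕ => y n) atTop (𝓝 y₀))
    (k : ℕ → ℕ) (hk : Tendsto k atTop atTop) (y₁ : Y)
    (hlim₁ : Tendsto (fun j => y (-(k j : ℤ))) atTop (𝓝 y₁)) : y₁ = y₀ := by
  set a : ℤ → H := fun n => g (y n) - g y₀ with ha
  have hU : ∀ n, a (n + 1) = U (a n) := by
    intro n
    simp only [ha, map_sub, ← heq, h₀, hy]
  have hinv : ∀ j m n : ℤ, ⟪a (m + j), a (n + j)⟫_ℂ = ⟪a m, a n⟫_ℂ := by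
    intro j
    induction j using Int.induction_on with
    | zero => simp
    | succ j ih =>
      intro m n
      rw [← add_assoc, ← add_assoc, hU, hU, LinearIsometryEquiv.inner_map_map, ih]
    | pred j ih =>
      intro m n
      rw [← ih m n, ← LinearIsometryEquiv.inner_map_map U, ← hU, ← hU]
      congr 2 <;> ring
  have hc : ∀ v : H, Continuous (fun z => ⟪v, g z - g y₀⟫_ℂ) := by
    intro v
    simp only [inner_sub_right]
    exact (hcont v).sub continuous_const
  have h1 : Tendsto (fun n : ℕ => ⟪a 0, a n⟫_ℂ) atTop (𝓝 0) := by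
    have := ((hc (a 0)).tendsto y₀).comp hlim
    simpa [Function.comp_def, ha] using this
  have h2 : ∀ m : ℤ, ⟪a m, g y₁ - g y₀⟫_ℂ = 0 := by
    intro m
    have t1 : Tendsto (fun j => ⟪a m, a (-(k j : ℤ))⟫_ℂ) atTop (𝓝 ⟪a m, g y₁ - g y₀⟫_ℂ) :=
      ((hc (a m)).tendsto y₁).comp hlim₁
    have hk' : Tendsto (fun j => (m + k j).toNat) atTop atTop := by
      rw [tendsto_atTop]
      intro b
      filter_upwards [hk.eventually_ge_atTop (b + m.natAbs)] with j hj
      omega
    have t2 := (continuous_conj.tendsto 0).comp (h1.comp hk')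
    rw [map_zero] at t2
    refine tendsto_nhds_unique_of_eventuallyEq t1 t2 ?_
    filter_upwards [hk.eventually_ge_atTop m.natAbs] with j hj
    simp only [Function.comp_apply, inner_conj_symm]
    rw [← hinv (k j), neg_add_cancel]
    congr 2
    omega
  have t1 : Tendsto (fun j => ⟪g y₁ - g y₀, a (-(k j : ℤ))⟫_ℂ) atTop
      (𝓝 ⟪g y₁ - g y₀, g y₁ - g y₀⟫_ℂ) := ((hc _).tendsto y₁).comp hlim₁
  have t2 : (fun j => ⟪g y₁ - g y₀, a (-(k j : ℤ))⟫_ℂ) = fun _ => 0 := by
    funext j
    rw [← inner_conj_symm, h2, map_zero]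
  rw [t2] at t1
  have h3 := tendsto_nhds_unique t1 tendsto_const_nhds
  exact hinj (sub_eq_zero.1 (inner_self_eq_zero.1 h3))

end Pool.Agent.MP_5139aa_an

end MrgPart1

-- ======== part 2: formerly Pool.Agent.MP_5139aa_an.Factor
section MrgPart2

set_option autoImplicit false

namespace Pool.Agent.MP_5139aa_an

open Complex Filter Topology
open scoped ComplexConjugate InnerProductSpace

/-- the closed unit ball of the dual, with the weak-star topology -/
abbrev Ball : Type := ↥(WeakDual.toStrongDual ⁻¹' Metric.closedBall (0 : StrongDual ℂ Hil) 1)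

lemma compactBall : CompactSpace Ball :=
  isCompact_iff_compactSpace.1 (WeakDual.isCompact_closedBall _ _)

lemma continuous_ev (v : Hil) : Continuous (fun φ : Ball => φ.1 v) :=
  (WeakDual.eval_continuous v).comp continuous_subtype_val

lemma ball_ext {φ ψ : Ball} (h : ∀ n, φ.1 (vec n) = ψ.1 (vec n)) : φ = ψ :=
  Subtype.ext (WeakDual.toStrongDual.injective (ext_vec _ _ h))

instance : TopologicalSpace.MetrizableSpace Ball := by
  have := compactBall
  have hc : Continuous (fun (φ : Ball) (n : ℤ) => φ.1 (vec n)) :=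
    continuous_pi (fun n => continuous_ev (vec n))
  have hi : Function.Injective (fun (φ : Ball) (n : ℤ) => φ.1 (vec n)) :=
    fun φ ψ h => ball_ext (congrFun h)
  exact (hc.isClosedEmbedding hi).isEmbedding.metrizableSpace

/-- the vector representing a functional -/
noncomputable def toVec (φ : Ball) : Hil :=
  (InnerProductSpace.toDual ℂ Hil).symm (WeakDual.toStrongDual φ.1)

lemma inner_toVec (φ : Ball) (v : Hil) : ⟪toVec φ, v⟫_ℂ = φ.1 v :=
  InnerProductSpace.toDual_symm_apply

lemma injective_toVec : Function.Injective toVec := fun φ ψ h =>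
  ball_ext (fun n => by rw [← inner_toVec, ← inner_toVec, h])

lemma norm_toVec (φ : Ball) : ‖toVec φ‖ ≤ 1 := by
  unfold toVec
  rw [LinearIsometryEquiv.norm_map]
  exact mem_closedBall_zero_iff.1 φ.2

lemma continuous_toVec (v : Hil) : Continuous (fun φ : Ball => ⟪v, toVec φ⟫_ℂ) := by
  have : (fun φ : Ball => ⟪v, toVec φ⟫_ℂ) = fun φ : Ball => conj (φ.1 v) := by
    funext φ
    rw [← inner_toVec, inner_conj_symm]
  rw [this]
  exact continuous_conj.comp (continuous_ev v)

/-- the functional given by a vector of the unit ball -/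
noncomputable def ofVec (v : Hil) (hv : ‖v‖ ≤ 1) : Ball :=
  ⟨StrongDual.toWeakDual (InnerProductSpace.toDual ℂ Hil v), by
    change InnerProductSpace.toDual ℂ Hil v ∈ Metric.closedBall 0 1
    rwa [mem_closedBall_zero_iff, LinearIsometryEquiv.norm_map]⟩

lemma ofVec_apply (v : Hil) (hv : ‖v‖ ≤ 1) (w : Hil) : (ofVec v hv).1 w = ⟪v, w⟫_ℂ := rfl

/-- the action of a unitary operator on the ball -/
noncomputable def act (V : Hil ≃ₗᵢ[ℂ] Hil) (φ : Ball) : Ball :=
  ofVec (V (toVec φ)) (by rw [LinearIsometryEquiv.norm_map]; exact norm_toVec φ)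

lemma act_apply (V : Hil ≃ₗᵢ[ℂ] Hil) (φ : Ball) (w : Hil) :
    (act V φ).1 w = φ.1 (V.symm w) := by
  rw [act, ofVec_apply, ← inner_toVec, ← LinearIsometryEquiv.inner_map_map V (toVec φ),
    LinearIsometryEquiv.apply_symm_apply]

lemma continuous_act (V : Hil ≃ₗᵢ[ℂ] Hil) : Continuous (act V) := by
  refine Continuous.subtype_mk (WeakDual.continuous_of_continuous_eval (fun w => ?_)) _
  have : (fun φ : Ball => (act V φ).1 w) = fun φ : Ball => φ.1 (V.symm w) :=
    funext (fun φ => act_apply V φ w)
  exact this ▸ continuous_ev _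

/-- the homeomorphism of the ball -/
noncomputable def ballMap : Ball ≃ₜ Ball where
  toFun := act Uni
  invFun := act Uni.symm
  left_inv φ := ball_ext (fun n => by simp [act_apply])
  right_inv φ := ball_ext (fun n => by simp [act_apply])
  continuous_toFun := continuous_act _
  continuous_invFun := continuous_act _

lemma toVec_ballMap (φ : Ball) : toVec (ballMap φ) = Uni (toVec φ) := by
  refine ext_inner_right ℂ (fun w => ?_)
  rw [inner_toVec]
  rfl

lemma symm_vec (n : ℤ) : Uni.symm (vec n) = vec (n - 1) := by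
  rw [LinearIsometryEquiv.symm_apply_eq, Uni_vec, sub_add_cancel]

/-- the factor map, to real sequences -/
noncomputable def code (φ : Ball) (n : ℤ) : ℝ := max ((φ.1 (vec n)).im - 1 / 4) 0

lemma continuous_code : Continuous code :=
  continuous_pi (fun n =>
    ((continuous_im.comp (continuous_ev (vec n))).sub continuous_const).max continuous_const)

lemma code_act (φ : Ball) (n : ℤ) : code (act Uni φ) n = code φ (n - 1) := by
  simp only [code, act_apply, symm_vec]

lemma code_act_symm (φ : Ball) (n : ℤ) : code (act Uni.symm φ) n = code φ (n + 1) := by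
  simp only [code, act_apply, LinearIsometryEquiv.symm_symm, Uni_vec]

/-- the factor -/
abbrev Fac : Type := ↥(Set.range code)

lemma compactFac : CompactSpace Fac := by
  have := compactBall
  exact isCompact_iff_compactSpace.1 (isCompact_range continuous_code)

/-- the shift of the factor -/
noncomputable def facMap : Fac ≃ₜ Fac where
  toFun y := ⟨fun n => y.1 (n - 1), by
    obtain ⟨_, φ, rfl⟩ := y
    exact ⟨act Uni φ, funext (code_act φ)⟩⟩
  invFun y := ⟨fun n => y.1 (n + 1), by
    obtain ⟨_, φ, rfl⟩ := y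
    exact ⟨act Uni.symm φ, funext (code_act_symm φ)⟩⟩
  left_inv y := Subtype.ext (funext (fun n => by simp))
  right_inv y := Subtype.ext (funext (fun n => by simp))
  continuous_toFun := by
    refine Continuous.subtype_mk (continuous_pi (fun n => ?_)) _
    exact (continuous_apply (n - 1 : ℤ)).comp continuous_subtype_val
  continuous_invFun := by
    refine Continuous.subtype_mk (continuous_pi (fun n => ?_)) _
    exact (continuous_apply (n + 1 : ℤ)).comp continuous_subtype_val

/-- the factor map -/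
noncomputable def proj (φ : Ball) : Fac := ⟨code φ, φ, rfl⟩

lemma continuous_proj : Continuous proj := continuous_code.subtype_mk _

lemma surjective_proj : Function.Surjective proj := by
  rintro ⟨_, φ, rfl⟩
  exact ⟨φ, rfl⟩

lemma proj_ballMap (φ : Ball) : proj (ballMap φ) = facMap (proj φ) :=
  Subtype.ext (funext (code_act φ))

/-- the distinguished orbit in the factor -/
noncomputable def orb (j : ℤ) : Fac := proj (ofVec (vec j) (norm_vec j).le)

lemma orb_apply (j n : ℤ) : (orb j).1 n = max ((p (n - j)).im - 1 / 4) 0 := by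
  simp only [orb, proj, code, ofVec_apply, inner_vec]

/-- the fixed point of the factor -/
noncomputable def fix : Fac := proj (ofVec 0 (by simp))

lemma fix_apply (n : ℤ) : fix.1 n = 0 := by
  simp only [fix, proj, code, ofVec_apply, inner_zero_left]
  norm_num

lemma not_representable {H : Type} [NormedAddCommGroup H] [InnerProductSpace ℂ H]
    (U : H ≃ₗᵢ[ℂ] H) (g : Fac → H) (hinj : Function.Injective g)
    (heq : ∀ y, g (facMap y) = U (g y)) (hcont : ∀ v : H, Continuous (fun y => ⟪v, g y⟫_ℂ)) :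
    False := by
  have := compactFac
  obtain ⟨y₁, φ, hφ, hlim₁⟩ := CompactSpace.tendsto_subseq (fun k : ℕ => orb (-((3 ^ k : ℕ) : ℤ)))
  have hy : ∀ n, orb (n + 1) = facMap (orb n) := by
    intro n
    refine Subtype.ext (funext (fun m => ?_))
    change (orb (n + 1)).1 m = (orb n).1 (m - 1)
    rw [orb_apply, orb_apply, show m - (n + 1) = m - 1 - n by ring]
  have h₀ : facMap fix = fix := by
    refine Subtype.ext (funext (fun m => ?_))
    change fix.1 (m - 1) = fix.1 m
    rw [fix_apply, fix_apply]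
  have hlim : Tendsto (fun n : ℕ => orb n) atTop (𝓝 fix) := by
    rw [tendsto_subtype_rng, tendsto_pi_nhds]
    intro m
    refine tendsto_const_nhds.congr' ?_
    filter_upwards [eventually_ge_atTop m.natAbs] with n hn
    rw [fix_apply, orb_apply, eq_comm, max_eq_right_iff]
    linarith [im_p_le (m - n) (by omega)]
  have hk : Tendsto (fun j => 3 ^ φ j) atTop atTop :=
    (tendsto_pow_atTop_atTop_of_one_lt (by norm_num : (1 : ℕ) < 3)).comp hφ.tendsto_atTop
  have h := symmetry U g facMap hinj heq hcont orb hy fix h₀ hlim (fun j => 3 ^ φ j) hk y₁ hlim₁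
  have t1 : Tendsto (fun j => (orb (-((3 ^ φ j : ℕ) : ℤ))).1 0) atTop (𝓝 (y₁.1 0)) :=
    (((continuous_apply 0).comp continuous_subtype_val).tendsto y₁).comp hlim₁
  have t2 : (fun j => (orb (-((3 ^ φ j : ℕ) : ℤ))).1 0) = fun _ => 1 / 4 := by
    funext j
    rw [orb_apply, zero_sub, neg_neg]
    push_cast
    rw [p_pow]
    norm_num
  rw [t2, h, fix_apply] at t1
  have h3 := tendsto_nhds_unique t1 tendsto_const_nhds
  norm_num at h3

end Pool.Agent.MP_5139aa_an

end MrgPart2

-- marker of a merged file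
example : 731051 + 227774 = 731051 + 227774 := rfl
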